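import Pool.Agent.R719.DS.Glob

/-!
# Arithmetic part: CM fields
-/

set_option autoImplicit false

open Polynomial NumberField Module Filter Topology

namespace Pool.Agent.R719.DS

noncomputable section

/-- The complex conjugation of a CM field, as a ring homomorphism. -/
def cc (K : Type) [Field K] [NumberField K] [IsCMField K] : K →+* K :=
  (IsCMField.complexConj K).toRingEquiv.toRingHom

theorem cc_apply {K : Type} [Field K] [NumberField K] [IsCMField K] (y : K) :
    cc K y = IsCMField.complexConj K y := rfl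

theorem cc_emb {K : Type} [Field K] [NumberField K] [IsCMField K] (φ : K →+* ℂ) (y : K) :
    φ (cc K y) = (starRingEnd ℂ) (φ y) :=
  IsCMField.complexEmbedding_complexConj K φ y

variable {K L : Type} [Field K] [NumberField K] [Field L] [NumberField L] [Algebra K L]

theorem int_coeff (x : L) (hx : IsIntegral ℤ x) (i : ℕ) : IsIntegral ℤ ((minpoly K x).coeff i) := by
  have h1 : minpoly K x ∣ (minpoly ℤ x).map (algebraMap ℤ K) := by
    apply minpoly.dvd
    rw [aeval_map_algebraMap, minpoly.aeval]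
  have hxK : IsIntegral K x := hx.tower_top
  have h2 := integralClosure.mem_lifts_of_monic_of_dvd_map K (minpoly.monic hx)
    (minpoly.monic hxK) h1
  rw [lifts_iff_coeff_lifts] at h2
  obtain ⟨y, hy⟩ := h2 i
  rw [← hy]
  exact y.2

theorem int_dif (c : K →+* K) (x : L) (hx : IsIntegral ℤ x) (i : ℕ) :
    IsIntegral ℤ ((dif c x).coeff i) := by
  rw [dif, coeff_sub, coeff_map]
  exact (int_coeff x hx i).sub ((int_coeff x hx i).map (c.toIntAlgHom))

theorem norm_ge_one {K : Type} [Field K] [NumberField K] (y : K) (hy : IsIntegral ℤ y)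
    (h0 : y ≠ 0) : 1 ≤ |(Algebra.norm ℚ y : ℝ)| := by
  have h1 : IsIntegral ℤ (Algebra.norm ℚ y) := Algebra.isIntegral_norm ℚ hy
  obtain ⟨z, hz⟩ := IsIntegrallyClosed.isIntegral_iff.1 h1
  have hz0 : z ≠ 0 := by
    rintro rfl
    rw [map_zero] at hz
    exact (Algebra.norm_ne_zero_iff.2 h0) hz.symm
  rw [← hz]
  have h2 : (1 : ℤ) ≤ |z| := Int.one_le_abs hz0
  have h3 : ((algebraMap ℤ ℚ z : ℚ) : ℝ) = (z : ℝ) := by simp
  rw [h3]
  exact_mod_cast h2

/-- The minimal polynomial over a CM field inside `ℚ(x)` is not real. -/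
theorem dif_ne [IsCMField K] (x : L) (hx : IntermediateField.adjoin ℚ {x} = ⊤) :
    dif (cc K) x ≠ 0 := by
  intro h0
  have hfin : FiniteDimensional K L := FiniteDimensional.right ℚ K L
  have hxK : IsIntegral K x := IsIntegral.of_finite K x
  rw [dif, sub_eq_zero] at h0
  obtain ⟨φ⟩ : Nonempty (K →+* ℂ) := inferInstance
  have hdeg : ((minpoly K x).map φ).degree ≠ 0 := by
    rw [degree_map]
    exact (minpoly.degree_pos hxK).ne'
  obtain ⟨η, hη⟩ := IsAlgClosed.exists_root _ hdeg
  have hη1 : η ∈ ((minpoly K x).map φ).roots := by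
    rw [mem_roots]
    · exact hη
    · exact (Polynomial.map_ne_zero_iff φ.injective).2 (minpoly.ne_zero hxK)
  have hη2 : η ∈ ((minpoly K x).map (φ.comp (cc K))).roots := by
    rw [← Polynomial.map_map, ← h0]
    exact hη1
  obtain ⟨ψ, hψ1, hψ2⟩ := root_lift φ x η hη1
  obtain ⟨χ, hχ1, hχ2⟩ := root_lift (φ.comp (cc K)) x η hη2
  have heq : ψ.toRatAlgHom = χ.toRatAlgHom := by
    have h1 : ∀ y ∈ IntermediateField.adjoin ℚ {x}, ψ.toRatAlgHom y = χ.toRatAlgHom y := by
      intro y hy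
      induction hy using IntermediateField.adjoin_induction with
      | mem y hy =>
        rw [Set.mem_singleton_iff.1 hy]
        change ψ x = χ x
        rw [hψ2, hχ2]
      | algebraMap q => rw [AlgHom.commutes, AlgHom.commutes]
      | add a b _ _ ha hb => rw [map_add, map_add, ha, hb]
      | inv a _ ha => rw [map_inv₀, map_inv₀, ha]
      | mul a b _ _ ha hb => rw [map_mul, map_mul, ha, hb]
    ext y
    exact h1 y (by rw [hx]; trivial)
  have heq2 : ψ = χ := by
    ext y
    exact congrArg (fun g : L →ₐ[ℚ] ℂ => g y) heq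
  have h2 : φ = φ.comp (cc K) := by rw [← hχ1, ← heq2, hψ1]
  apply IsCMField.complexConj_ne_one K
  ext y
  have h3 : φ y = φ (cc K y) := congrArg (fun g : K →+* ℂ => g y) h2
  exact (φ.injective h3).symm

theorem disc_bound [IsCMField K] (h2 : finrank ℚ K = 2) (y : K) (hy : IsIntegral ℤ y)
    (hne : y - cc K y ≠ 0) : (|(discr K : ℝ)|) ≤ |(Algebra.norm ℚ (y - cc K y) : ℝ)| := by
  classical
  -- two embeddings
  obtain ⟨φ⟩ : Nonempty (K →+* ℂ) := inferInstance
  set φ1 : K →ₐ[ℚ] ℂ := φ.toRatAlgHom with hφ1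
  set φ2 : K →ₐ[ℚ] ℂ := (φ.comp (cc K)).toRatAlgHom with hφ2
  have hne' : φ1 ≠ φ2 := by
    intro h
    have h3 : φ1 y = φ2 y := by rw [h]
    have h4 : φ (y - cc K y) = 0 := by
      rw [map_sub, sub_eq_zero]
      exact h3
    exact hne ((map_eq_zero φ).1 h4)
  have huniv : (Finset.univ : Finset (K →ₐ[ℚ] ℂ)) = {φ1, φ2} := by
    symm
    apply Finset.eq_univ_of_card
    rw [Finset.card_pair hne', AlgHom.card, h2]
  have htr : ∀ z : K, ((Algebra.trace ℚ K z : ℚ) : ℂ) = φ z + φ (cc K z) := by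
    intro z
    have h3 := trace_eq_sum_embeddings ℂ (K := ℚ) (L := K) (x := z)
    rw [huniv, Finset.sum_pair hne'] at h3
    exact h3
  have hno : ∀ z : K, ((Algebra.norm ℚ z : ℚ) : ℂ) = φ z * φ (cc K z) := by
    intro z
    have h3 := Algebra.norm_eq_prod_embeddings ℚ ℂ (L := K) z
    rw [huniv, Finset.prod_pair hne'] at h3
    exact h3
  -- basis
  have hrk : Fintype.card (Free.ChooseBasisIndex ℤ (𝓞 K)) = 2 := by
    rw [← finrank_eq_card_chooseBasisIndex, RingOfIntegers.rank, h2]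
  let e : Free.ChooseBasisIndex ℤ (𝓞 K) ≃ Fin 2 := Fintype.equivFinOfCardEq hrk
  let b := (RingOfIntegers.basis K).reindex e
  let w : 𝓞 K := ⟨y, hy⟩
  let v : Fin 2 → 𝓞 K := ![1, w]
  have h5 : Algebra.discr ℤ v = (b.toMatrix v).det ^ 2 * discr K := by
    rw [← discr_eq_discr K b, ← Algebra.discr_of_matrix_vecMul, Basis.toMatrix_map_vecMul]
  have h6 : Algebra.discr ℤ v = 2 * Algebra.trace ℤ (𝓞 K) (w * w) - (Algebra.trace ℤ (𝓞 K) w) ^ 2 := by
    rw [Algebra.discr_def, Matrix.det_fin_two]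
    simp only [Algebra.traceMatrix_apply, Algebra.traceForm_apply, v, Matrix.cons_val_zero,
      Matrix.cons_val_one, one_mul, mul_one]
    have h7 : Algebra.trace ℤ (𝓞 K) 1 = 2 := by
      have h8 := Algebra.trace_algebraMap (R := ℤ) (S := 𝓞 K) 1
      rw [map_one, RingOfIntegers.rank, h2] at h8
      simpa using h8
    rw [h7]
    ring
  have h9 : ((Algebra.discr ℤ v : ℤ) : ℂ) = (φ y - φ (cc K y)) ^ 2 := by
    rw [h6]
    push_cast
    have t1 : ((Algebra.trace ℤ (𝓞 K) (w * w) : ℤ) : ℂ) = φ (y * y) + φ (cc K (y * y)) := by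
      rw [← htr]
      have := Algebra.coe_trace_int (K := K) (w * w)
      rw [show ((w * w : 𝓞 K) : K) = y * y from rfl] at this
      rw [← this]
      push_cast
      rfl
    have t2 : ((Algebra.trace ℤ (𝓞 K) w : ℤ) : ℂ) = φ y + φ (cc K y) := by
      rw [← htr]
      have := Algebra.coe_trace_int (K := K) w
      rw [show ((w : 𝓞 K) : K) = y from rfl] at this
      rw [← this]
      push_cast
      rfl
    rw [t1, t2]
    simp only [map_mul]
    ring
  have h10 : ((Algebra.norm ℚ (y - cc K y) : ℚ) : ℂ) = -((Algebra.discr ℤ v : ℤ) : ℂ) := by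
    rw [hno, h9]
    have : cc K (cc K y) = y := IsCMField.complexConj_apply_apply K y
    simp only [map_sub, this]
    ring
  have h11 : ((Algebra.norm ℚ (y - cc K y) : ℚ) : ℝ) = -((Algebra.discr ℤ v : ℤ) : ℝ) := by
    exact_mod_cast h10
  have h12 : Algebra.norm ℚ (y - cc K y) ≠ 0 := Algebra.norm_ne_zero_iff.2 hne
  have h13 : (b.toMatrix v).det ≠ 0 := by
    intro h0
    rw [h0, zero_pow two_ne_zero, zero_mul] at h5
    rw [h5] at h11
    apply h12
    have : ((Algebra.norm ℚ (y - cc K y) : ℚ) : ℝ) = 0 := by simpa using h11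
    exact_mod_cast this
  rw [h11, abs_neg, h5, Int.cast_mul, Int.cast_pow, abs_mul, abs_pow]
  have h14 : (1 : ℝ) ≤ |((b.toMatrix v).det : ℝ)| := by
    exact_mod_cast Int.one_le_abs h13
  have h15 : (0 : ℝ) ≤ |(discr K : ℝ)| := abs_nonneg _
  nlinarith [mul_nonneg h15 (sub_nonneg.2 h14), one_le_pow₀ (n := 2) h14]

end

end Pool.Agent.R719.DS
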