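import Mathlib

/-!
# Local part: lower bound for the Green functions of a non-real polynomial

`F` is a monic complex polynomial such that `F ⁻¹ [a, b] ⊆ [a, b]` and `G` a monic polynomial which
is not real.
-/

set_option autoImplicit false

open Polynomial

namespace Pool.Agent.R719.DS

noncomputable section

/-- All complex preimages of the points of the interval `[a, b]` lie in `[a, b]`. -/
def Inv (F : ℂ[X]) (a b : ℝ) : Prop :=
  a < b ∧ ∀ t : ℝ, a ≤ t → t ≤ b → ∀ z : ℂ, F.eval z = (t : ℂ) → ∃ s : ℝ, a ≤ s ∧ s ≤ b ∧ z = s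

/-- A point of `[a, b]` far from `k` given points. -/
theorem far {a b : ℝ} (hab : a < b) (k : ℕ) (S : Multiset ℂ) (hS : S.card ≤ k) :
    ∃ t : ℝ, a ≤ t ∧ t ≤ b ∧ ∀ s ∈ S, (b - a) / (2 * (k + 1)) ≤ ‖s - (t : ℂ)‖ := by
  classical
  by_contra hcon
  push Not at hcon
  let T : ℕ → ℝ := fun j => a + j * ((b - a) / (k + 1))
  have hk : (0 : ℝ) < (k : ℝ) + 1 := by positivity
  have hr : 0 < (b - a) / (k + 1) := div_pos (by linarith) hk
  have hT : ∀ j ∈ Finset.range (k + 1), ∃ s ∈ S, ‖s - ((T j : ℝ) : ℂ)‖ < (b - a) / (2 * (k + 1)) := by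
    intro j hj
    rw [Finset.mem_range] at hj
    apply hcon (T j)
    · have : 0 ≤ (j : ℝ) * ((b - a) / (k + 1)) := by positivity
      simp only [T]; linarith
    · have h1 : (j : ℝ) * ((b - a) / (k + 1)) ≤ ((k : ℝ) + 1) * ((b - a) / (k + 1)) := by
        apply mul_le_mul_of_nonneg_right _ hr.le
        have : ((j : ℕ) : ℝ) < ((k + 1 : ℕ) : ℝ) := by exact_mod_cast hj
        push_cast at this
        linarith
      have h2 : ((k : ℝ) + 1) * ((b - a) / (k + 1)) = b - a := by field_simp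
      simp only [T]; linarith
  choose! s hs hs2 using hT
  have hcard : S.toFinset.card < (Finset.range (k + 1)).card := by
    rw [Finset.card_range]
    exact lt_of_le_of_lt (le_trans (Multiset.toFinset_card_le S) hS) (Nat.lt_succ_self k)
  obtain ⟨i, hi, j, hj, hij, he⟩ := Finset.exists_ne_map_eq_of_card_lt_of_maps_to hcard
    (fun j hj => Multiset.mem_toFinset.mpr (hs j hj))
  have h1 := hs2 i hi
  have h2 := hs2 j hj
  rw [he] at h1
  have h3 : ‖((T i : ℝ) : ℂ) - ((T j : ℝ) : ℂ)‖ < (b - a) / (k + 1) := by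
    have h4 : ((T i : ℝ) : ℂ) - ((T j : ℝ) : ℂ) = (s j - ((T j : ℝ) : ℂ)) - (s j - ((T i : ℝ) : ℂ)) := by
      ring
    rw [h4]
    have h5 := norm_sub_le (s j - ((T j : ℝ) : ℂ)) (s j - ((T i : ℝ) : ℂ))
    have h6 : (b - a) / (2 * (k + 1)) + (b - a) / (2 * (k + 1)) = (b - a) / (k + 1) := by
      field_simp; ring
    linarith
  rw [← Complex.ofReal_sub, Complex.norm_real, Real.norm_eq_abs] at h3
  have h7 : T i - T j = ((i : ℝ) - j) * ((b - a) / (k + 1)) := by simp only [T]; ring
  rw [h7, abs_mul, abs_of_pos hr] at h3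
  have h8 : (1 : ℝ) ≤ |(i : ℝ) - j| := by
    have h9 : ((i : ℤ) - (j : ℤ)) ≠ 0 := by omega
    have h10 : (1 : ℤ) ≤ |(i : ℤ) - (j : ℤ)| := Int.one_le_abs h9
    exact_mod_cast h10
  have h11 : 1 * ((b - a) / (k + 1)) ≤ |(i : ℝ) - j| * ((b - a) / (k + 1)) :=
    mul_le_mul_of_nonneg_right h8 hr.le
  linarith

theorem log_prod {α : Type*} (s : Multiset α) (g : α → ℝ) (h : ∀ x ∈ s, g x ≠ 0) :
    Real.log (s.map g).prod = (s.map fun x => Real.log (g x)).sum := by
  induction s using Multiset.induction_on with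
  | empty => simp
  | cons x s ih =>
    rw [Multiset.map_cons, Multiset.prod_cons, Multiset.map_cons, Multiset.sum_cons,
      Real.log_mul (h x (Multiset.mem_cons_self x s)), ih]
    · exact fun y hy => h y (Multiset.mem_cons_of_mem hy)
    · intro h0
      rw [Multiset.prod_eq_zero_iff, Multiset.mem_map] at h0
      obtain ⟨y, hy, hy0⟩ := h0
      exact h y (Multiset.mem_cons_of_mem hy) hy0

theorem prod_eval (E H : ℂ[X]) (hE : E.Monic) :
    (E.roots.map fun x => ‖H.eval x‖).prod =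
      ‖H.leadingCoeff‖ ^ E.natDegree * (H.roots.map fun η => ‖E.eval η‖).prod := by
  have h1 : ∀ x : ℂ, ‖H.eval x‖ = ‖H.leadingCoeff‖ * (H.roots.map fun η => ‖x - η‖).prod := by
    intro x
    conv_lhs => rw [(IsAlgClosed.splits H).eq_prod_roots]
    rw [eval_mul, eval_C, norm_mul, eval_multiset_prod, Multiset.map_map]
    congr 1
    have : ∀ s : Multiset ℂ, ‖s.prod‖ = (s.map fun z => ‖z‖).prod := by
      intro s
      induction s using Multiset.induction_on with
      | empty => simp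
      | cons a s ih => simp [ih]
    rw [this, Multiset.map_map]
    simp
  have h2 : ∀ η : ℂ, ‖E.eval η‖ = (E.roots.map fun x => ‖x - η‖).prod := by
    intro η
    conv_lhs => rw [(IsAlgClosed.splits E).eq_prod_roots]
    rw [hE.leadingCoeff, C_1, one_mul, eval_multiset_prod, Multiset.map_map]
    have : ∀ s : Multiset ℂ, ‖s.prod‖ = (s.map fun z => ‖z‖).prod := by
      intro s
      induction s using Multiset.induction_on with
      | empty => simp
      | cons a s ih => simp [ih]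
    rw [this, Multiset.map_map]
    refine congrArg Multiset.prod (Multiset.map_congr rfl fun x _ => ?_)
    simp [norm_sub_rev]
  simp_rw [h1, h2]
  rw [Multiset.prod_map_mul, Multiset.map_const', Multiset.prod_replicate,
    Multiset.prod_map_prod_map, ← (IsAlgClosed.splits E).natDegree_eq_card_roots]

theorem sum_log (E H : ℂ[X]) (hE : E.Monic) (hH : H ≠ 0) (h : ∀ η ∈ H.roots, E.eval η ≠ 0) :
    (E.roots.map fun x => Real.log ‖H.eval x‖).sum =
      E.natDegree * Real.log ‖H.leadingCoeff‖ + (H.roots.map fun η => Real.log ‖E.eval η‖).sum := by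
  have hx : ∀ x ∈ E.roots, ‖H.eval x‖ ≠ 0 := by
    intro x hx h0
    rw [norm_eq_zero] at h0
    exact h x ((mem_roots hH).2 h0) ((mem_roots hE.ne_zero).1 hx)
  have hη : ∀ x ∈ H.roots, ‖E.eval x‖ ≠ 0 := fun x hx => norm_ne_zero_iff.2 (h x hx)
  rw [← log_prod _ _ hx, prod_eval E H hE, Real.log_mul, Real.log_pow, log_prod _ _ hη]
  · exact pow_ne_zero _ (norm_ne_zero_iff.2 (leadingCoeff_ne_zero.2 hH))
  · intro h0
    rw [Multiset.prod_eq_zero_iff, Multiset.mem_map] at h0
    obtain ⟨y, hy, hy0⟩ := h0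
    exact hη y hy hy0

/-- Concavity of the logarithm. -/
theorem log_conc {α β ν : ℝ} (hα : 0 < α) (hβ : 0 < β) (hν : 0 < ν) :
    4 / (4 + ν) * Real.log α + ν / (4 + ν) * Real.log β + Real.log (4 + ν)
      - 4 / (4 + ν) * Real.log 4 - ν / (4 + ν) * Real.log ν ≤ Real.log (α + β) := by
  have hs : 0 < 4 + ν := by positivity
  have hx : α / (4 / (4 + ν)) ∈ Set.Ioi (0 : ℝ) := Set.mem_Ioi.2 (by positivity)
  have hy : β / (ν / (4 + ν)) ∈ Set.Ioi (0 : ℝ) := Set.mem_Ioi.2 (by positivity)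
  have ha : (0 : ℝ) ≤ 4 / (4 + ν) := by positivity
  have hb : (0 : ℝ) ≤ ν / (4 + ν) := by positivity
  have hab : 4 / (4 + ν) + ν / (4 + ν) = 1 := by field_simp
  have h := (strictConcaveOn_log_Ioi.concaveOn).2 hx hy ha hb hab
  simp only [smul_eq_mul] at h
  have e1 : 4 / (4 + ν) * (α / (4 / (4 + ν))) + ν / (4 + ν) * (β / (ν / (4 + ν))) = α + β := by
    field_simp
  rw [e1, Real.log_div hα.ne' (by positivity), Real.log_div hβ.ne' (by positivity),
    Real.log_div (by norm_num) hs.ne', Real.log_div hν.ne' hs.ne'] at h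
  have e2 : 4 / (4 + ν) + ν / (4 + ν) = 1 := by field_simp
  have e3 : Real.log (4 + ν) = 4 / (4 + ν) * Real.log (4 + ν) + ν / (4 + ν) * Real.log (4 + ν) := by
    rw [← add_mul, e2, one_mul]
  linarith

/-- The iterates of `F`, as polynomials. -/
def it (F : ℂ[X]) (n : ℕ) : ℂ[X] := (F.comp)^[n] X

theorem it_eval (F : ℂ[X]) (n : ℕ) (z : ℂ) : (it F n).eval z = (fun w => F.eval w)^[n] z := by
  rw [it, iterate_comp_eval, eval_X]

theorem it_deg (F : ℂ[X]) (n : ℕ) : (it F n).natDegree = F.natDegree ^ n := by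
  rw [it, natDegree_iterate_comp, natDegree_X, mul_one]

theorem it_monic (F : ℂ[X]) (hF : F.Monic) (hd : F.natDegree ≠ 0) (n : ℕ) : (it F n).Monic := by
  induction n with
  | zero => simp [it, monic_X]
  | succ n ih =>
    rw [it, Function.iterate_succ_apply']
    refine hF.comp ih ?_
    change (it F n).natDegree ≠ 0
    rw [it_deg]
    exact pow_ne_zero _ hd

theorem it_real {F : ℂ[X]} {a b : ℝ} (hI : Inv F a b) (n : ℕ) :
    ∀ t : ℝ, a ≤ t → t ≤ b → ∀ z : ℂ, (it F n).eval z = (t : ℂ) →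
      ∃ s : ℝ, a ≤ s ∧ s ≤ b ∧ z = s := by
  induction n with
  | zero =>
    intro t h1 h2 z hz
    refine ⟨t, h1, h2, ?_⟩
    simpa [it] using hz
  | succ n ih =>
    intro t h1 h2 z hz
    rw [it_eval, Function.iterate_succ_apply, ← it_eval] at hz
    obtain ⟨s, hs1, hs2, hs⟩ := ih t h1 h2 _ hz
    exact hI.2 s hs1 hs2 z hs

/-- The conjugate polynomial. -/
def cj (G : ℂ[X]) : ℂ[X] := G.map (starRingEnd ℂ)

theorem cj_eval (G : ℂ[X]) (s : ℝ) : (cj G).eval (s : ℂ) = (starRingEnd ℂ) (G.eval (s : ℂ)) := by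
  rw [cj]
  conv_lhs => rw [← Complex.conj_ofReal s]
  rw [eval_map_apply]

theorem par (u : ℂ) : ‖u + (starRingEnd ℂ) u‖ ^ 2 + ‖u - (starRingEnd ℂ) u‖ ^ 2 = 4 * ‖u‖ ^ 2 := by
  rw [Complex.sq_norm, Complex.sq_norm, Complex.sq_norm, Complex.normSq_apply, Complex.normSq_apply,
    Complex.normSq_apply]
  simp
  ring

/-- **Core inequality**: the sum of the Green functions of `F` at the zeros of `G`. -/
theorem core {F G : ℂ[X]} (hF : F.Monic) (hd : F.natDegree ≠ 0) (hG : G.Monic)
    (hne : G - cj G ≠ 0) {a b : ℝ} (hI : Inv F a b) {ν : ℝ} (hν : 0 < ν) :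
    ∃ C : ℝ, ∀ n : ℕ,
      (F.natDegree : ℝ) ^ n * (Real.log (1 + ν / 4) +
        ν / (4 + ν) * (2 * Real.log ‖(G - cj G).leadingCoeff‖ - Real.log ν)) - C ≤
      2 * (G.roots.map fun η => Real.posLog ‖(fun w => F.eval w)^[n] η‖).sum := by
  classical
  set m := G.natDegree with hm
  have hcm : (cj G).Monic := hG.map _
  have hcd : (cj G).natDegree = m := hG.natDegree_map _
  set A := G + cj G with hA
  set B := G - cj G with hB
  have hAl : A.leadingCoeff = 2 := by
    rw [hA, leadingCoeff_add_of_degree_eq]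
    · rw [hG.leadingCoeff, hcm.leadingCoeff]; norm_num
    · rw [degree_eq_natDegree hG.ne_zero, degree_eq_natDegree hcm.ne_zero, hcd]
    · rw [hG.leadingCoeff, hcm.leadingCoeff]; norm_num
  have hA0 : A ≠ 0 := by
    intro h0
    rw [h0, leadingCoeff_zero] at hAl
    norm_num at hAl
  have hAd : A.natDegree ≤ m := by
    refine le_trans (natDegree_add_le _ _) ?_
    rw [hcd]; simp [hm]
  have hBd : B.natDegree ≤ m := by
    refine le_trans (natDegree_sub_le _ _) ?_
    rw [hcd]; simp [hm]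
  have hAc : A.roots.card ≤ m := le_trans (card_roots' A) hAd
  have hBc : B.roots.card ≤ m := le_trans (card_roots' B) hBd
  set r := (b - a) / (2 * ((2 * m : ℕ) + 1)) with hr
  have hr0 : 0 < r := div_pos (by linarith [hI.1]) (by positivity)
  set δ := min r 1 with hδ
  have hδ0 : 0 < δ := lt_min hr0 one_pos
  have hδ1 : Real.log δ ≤ 0 := Real.log_nonpos hδ0.le (min_le_right _ _)
  set T := max |a| |b| with hT
  have hT0 : 0 ≤ T := le_trans (abs_nonneg a) (le_max_left _ _)
  refine ⟨2 * m * Real.log (1 + T) - 2 * m * Real.log δ, fun n => ?_⟩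
  set N := F.natDegree ^ n with hN
  obtain ⟨t, ht1, ht2, ht3⟩ := far hI.1 (2 * m)
    ((A.roots + B.roots).map fun η => (fun w => F.eval w)^[n] η) (by
      rw [Multiset.card_map, Multiset.card_add]; omega)
  set E := it F n - C (t : ℂ) with hE
  have hitm := it_monic F hF hd n
  have hEm : E.Monic := by
    refine hitm.sub_of_left ?_
    refine lt_of_le_of_lt degree_C_le ?_
    rw [degree_eq_natDegree hitm.ne_zero, it_deg]
    exact_mod_cast Nat.pos_of_ne_zero (pow_ne_zero _ hd)
  have hEd : E.natDegree = N := by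
    rw [hE, natDegree_sub_C, it_deg]
  have hEe : ∀ z, E.eval z = (fun w => F.eval w)^[n] z - t := by
    intro z
    rw [hE, eval_sub, eval_C, it_eval]
  have hEr : ∀ x ∈ E.roots, ∃ s : ℝ, x = s := by
    intro x hx
    rw [mem_roots hEm.ne_zero, IsRoot, hE, eval_sub, eval_C, sub_eq_zero] at hx
    obtain ⟨s, -, -, hs⟩ := it_real hI n t ht1 ht2 x hx
    exact ⟨s, hs⟩
  have hlow : ∀ η ∈ A.roots + B.roots, δ ≤ ‖E.eval η‖ := by
    intro η hη
    rw [hEe]
    exact le_trans (min_le_left _ _) (ht3 _ (Multiset.mem_map_of_mem _ hη))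
  have hAη : ∀ η ∈ A.roots, E.eval η ≠ 0 := by
    intro η hη h0
    have := hlow η (Multiset.mem_add.2 (Or.inl hη))
    rw [h0, norm_zero] at this
    linarith
  have hBη : ∀ η ∈ B.roots, E.eval η ≠ 0 := by
    intro η hη h0
    have := hlow η (Multiset.mem_add.2 (Or.inr hη))
    rw [h0, norm_zero] at this
    linarith
  have sA := sum_log E A hEm hA0 hAη
  have sB := sum_log E B hEm hne hBη
  have lA : (m : ℝ) * Real.log δ ≤ (A.roots.map fun η => Real.log ‖E.eval η‖).sum := by
    have h1 : A.roots.card • Real.log δ ≤ (A.roots.map fun η => Real.log ‖E.eval η‖).sum := by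
      have := Multiset.card_nsmul_le_sum (s := A.roots.map fun η => Real.log ‖E.eval η‖)
        (a := Real.log δ) (by
          intro x hx
          rw [Multiset.mem_map] at hx
          obtain ⟨η, hη, rfl⟩ := hx
          exact Real.log_le_log hδ0 (hlow η (Multiset.mem_add.2 (Or.inl hη))))
      rwa [Multiset.card_map] at this
    rw [nsmul_eq_mul] at h1
    have h2 : (A.roots.card : ℝ) ≤ m := by exact_mod_cast hAc
    nlinarith
  have lB : (m : ℝ) * Real.log δ ≤ (B.roots.map fun η => Real.log ‖E.eval η‖).sum := by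
    have h1 : B.roots.card • Real.log δ ≤ (B.roots.map fun η => Real.log ‖E.eval η‖).sum := by
      have := Multiset.card_nsmul_le_sum (s := B.roots.map fun η => Real.log ‖E.eval η‖)
        (a := Real.log δ) (by
          intro x hx
          rw [Multiset.mem_map] at hx
          obtain ⟨η, hη, rfl⟩ := hx
          exact Real.log_le_log hδ0 (hlow η (Multiset.mem_add.2 (Or.inr hη))))
      rwa [Multiset.card_map] at this
    rw [nsmul_eq_mul] at h1
    have h2 : (B.roots.card : ℝ) ≤ m := by exact_mod_cast hBc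
    nlinarith
  -- pointwise values at the roots of `E`
  have pA : ∀ x ∈ E.roots, 0 < ‖A.eval x‖ := by
    intro x hx
    rw [norm_pos_iff]
    intro h0
    exact hAη x ((mem_roots hA0).2 h0) ((mem_roots hEm.ne_zero).1 hx)
  have pB : ∀ x ∈ E.roots, 0 < ‖B.eval x‖ := by
    intro x hx
    rw [norm_pos_iff]
    intro h0
    exact hBη x ((mem_roots hne).2 h0) ((mem_roots hEm.ne_zero).1 hx)
  have hpar : ∀ x ∈ E.roots, ‖A.eval x‖ ^ 2 + ‖B.eval x‖ ^ 2 = 4 * ‖G.eval x‖ ^ 2 := by
    intro x hx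
    obtain ⟨s, rfl⟩ := hEr x hx
    rw [hA, hB, eval_add, eval_sub, cj_eval]
    exact par _
  have pG : ∀ x ∈ E.roots, 0 < ‖G.eval x‖ := by
    intro x hx
    have h1 := hpar x hx
    have h2 := pA x hx
    have h3 := pB x hx
    have h4 : 0 < ‖G.eval x‖ ^ 2 := by nlinarith [pow_pos h2 2, pow_pos h3 2]
    rcases (norm_nonneg (G.eval x)).eq_or_lt with h5 | h5
    · rw [← h5] at h4; norm_num at h4
    · exact h5
  have hGη : ∀ η ∈ G.roots, E.eval η ≠ 0 := by
    intro η hη h0
    have h1 := pG η ((mem_roots hEm.ne_zero).2 h0)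
    rw [(mem_roots hG.ne_zero).1 hη, norm_zero] at h1
    exact lt_irrefl _ h1
  have sG := sum_log E G hEm hG.ne_zero hGη
  -- concavity
  have hcard : E.roots.card = N := by
    rw [← (IsAlgClosed.splits E).natDegree_eq_card_roots, hEd]
  set K0 := Real.log (4 + ν) - 4 / (4 + ν) * Real.log 4 - ν / (4 + ν) * Real.log ν with hK0
  have hsum : (E.roots.map fun x => 8 / (4 + ν) * Real.log ‖A.eval x‖ +
      (2 * ν / (4 + ν) * Real.log ‖B.eval x‖ + (K0 - Real.log 4))).sum ≤
      (E.roots.map fun x => 2 * Real.log ‖G.eval x‖).sum := by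
    refine Multiset.sum_map_le_sum_map _ _ fun x hx => ?_
    have h1 := log_conc (pow_pos (pA x hx) 2) (pow_pos (pB x hx) 2) hν
    rw [hpar x hx, Real.log_mul (by norm_num) (pow_pos (pG x hx) 2).ne', Real.log_pow, Real.log_pow,
      Real.log_pow] at h1
    push_cast at h1
    have e1 : 8 / (4 + ν) * Real.log ‖A.eval x‖ = 4 / (4 + ν) * (2 * Real.log ‖A.eval x‖) := by ring
    have e2 : 2 * ν / (4 + ν) * Real.log ‖B.eval x‖ = ν / (4 + ν) * (2 * Real.log ‖B.eval x‖) := by
      ring
    rw [e1, e2, hK0]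
    linarith
  rw [Multiset.sum_map_add, Multiset.sum_map_add, Multiset.sum_map_mul_left,
    Multiset.sum_map_mul_left, Multiset.sum_map_mul_left, Multiset.map_const', Multiset.sum_replicate,
    hcard, sA, sB, sG, hEd, hAl, hG.leadingCoeff] at hsum
  -- the upper bound
  have hup : (G.roots.map fun η => Real.log ‖E.eval η‖).sum ≤
      (G.roots.map fun η => Real.log (1 + T) + Real.posLog ‖(fun w => F.eval w)^[n] η‖).sum := by
    refine Multiset.sum_map_le_sum_map _ _ fun η hη => ?_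
    have h1 : ‖E.eval η‖ ≤ (1 + T) * max 1 ‖(fun w => F.eval w)^[n] η‖ := by
      rw [hEe]
      have h2 : ‖(t : ℂ)‖ ≤ T := by
        rw [Complex.norm_real, Real.norm_eq_abs]
        exact abs_le_max_abs_abs ht1 ht2
      have h3 := norm_sub_le ((fun w => F.eval w)^[n] η) (t : ℂ)
      have h4 := le_max_left 1 ‖(fun w => F.eval w)^[n] η‖
      have h5 := le_max_right 1 ‖(fun w => F.eval w)^[n] η‖
      nlinarith
    have h6 := Real.log_le_log (norm_pos_iff.2 (hGη η hη)) h1
    rw [Real.log_mul (by positivity) (by positivity)] at h6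
    rw [Real.posLog_eq_log_max_one (norm_nonneg _)]
    exact h6
  rw [Multiset.sum_map_add, Multiset.map_const', Multiset.sum_replicate,
    ← (IsAlgClosed.splits G).natDegree_eq_card_roots, ← hm] at hup
  simp only [nsmul_eq_mul] at hsum hup
  have hn2 : ‖(2 : ℂ)‖ = 2 := by simp
  rw [hn2, norm_one, Real.log_one, mul_zero, zero_add] at hsum
  have e4 : Real.log 4 = 2 * Real.log 2 := by
    rw [show (4 : ℝ) = 2 ^ 2 by norm_num, Real.log_pow]; push_cast; ring
  have e5 : Real.log (1 + ν / 4) = Real.log (4 + ν) - Real.log 4 := by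
    rw [← Real.log_div (by positivity) (by norm_num)]
    congr 1
    field_simp
  have hla : 8 / (4 + ν) * ((m : ℝ) * Real.log δ) ≤
      8 / (4 + ν) * (A.roots.map fun η => Real.log ‖E.eval η‖).sum :=
    mul_le_mul_of_nonneg_left lA (by positivity)
  have hmu : 2 * ν / (4 + ν) * ((m : ℝ) * Real.log δ) ≤
      2 * ν / (4 + ν) * (B.roots.map fun η => Real.log ‖E.eval η‖).sum :=
    mul_le_mul_of_nonneg_left lB (by positivity)
  have e6 : 8 / (4 + ν) * ((m : ℝ) * Real.log δ) + 2 * ν / (4 + ν) * ((m : ℝ) * Real.log δ) =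
      2 * m * Real.log δ := by
    field_simp
    ring
  have hNN : ((N : ℕ) : ℝ) = (F.natDegree : ℝ) ^ n := by rw [hN]; push_cast; rfl
  rw [hNN] at hsum
  set D := (F.natDegree : ℝ) ^ n with hD
  have e7 : 8 / (4 + ν) * (D * Real.log 2) + (2 * ν / (4 + ν) * (D * Real.log ‖B.leadingCoeff‖) +
      D * (K0 - Real.log 4)) =
      D * (Real.log (1 + ν / 4) + ν / (4 + ν) * (2 * Real.log ‖B.leadingCoeff‖ - Real.log ν)) := by
    rw [e5, hK0, e4]
    ring
  have e8 : 8 / (4 + ν) * (D * Real.log 2 + (A.roots.map fun η => Real.log ‖E.eval η‖).sum) =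
      8 / (4 + ν) * (D * Real.log 2) +
      8 / (4 + ν) * (A.roots.map fun η => Real.log ‖E.eval η‖).sum := by ring
  have e9 : 2 * ν / (4 + ν) * (D * Real.log ‖B.leadingCoeff‖ +
      (B.roots.map fun η => Real.log ‖E.eval η‖).sum) =
      2 * ν / (4 + ν) * (D * Real.log ‖B.leadingCoeff‖) +
      2 * ν / (4 + ν) * (B.roots.map fun η => Real.log ‖E.eval η‖).sum := by ring
  rw [e8, e9] at hsum
  rw [← e7]
  linarith

end

end Pool.Agent.R719.DS
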