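import Pool.Agent.R719.DS.Arith

/-!
# Non-integral points, examples
-/

set_option autoImplicit false

open Polynomial NumberField Module Filter Topology

namespace Pool.Agent.R719.DS

noncomputable section

variable {L : Type} [Field L] [NumberField L]

theorem mk_abv (w : IsDedekindDomain.HeightOneSpectrum (𝓞 L)) (x : L) :
    FinitePlace.mk w x = NumberField.HeightOneSpectrum.adicAbv L w x := by
  rw [FinitePlace.mk_apply, FinitePlace.norm_embedding]

theorem exists_place (y : L) (hy : ¬ IsIntegral ℤ y) :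
    ∃ w : IsDedekindDomain.HeightOneSpectrum (𝓞 L), 2 ≤ FinitePlace.mk w y := by
  by_contra hcon
  push Not at hcon
  apply hy
  have h1 : y ∈ (algebraMap (𝓞 L) L).range := by
    apply IsDedekindDomain.HeightOneSpectrum.mem_integers_of_valuation_le_one
    intro w
    by_contra hw
    rw [not_le] at hw
    have h2 := hcon w
    have hN := NumberField.HeightOneSpectrum.one_lt_absNorm w
    rw [mk_abv, NumberField.HeightOneSpectrum.adicAbv_def] at h2
    have h0 : w.valuation L y ≠ 0 := (lt_trans one_pos hw).ne'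
    rw [WithZeroMulInt.toNNReal_neg_apply _ h0] at h2
    have h3 : 0 < (WithZero.unzero h0).toAdd := by
      have h4 : (1 : WithZero (Multiplicative ℤ)) < ((WithZero.unzero h0 : Multiplicative ℤ) : WithZero (Multiplicative ℤ)) := by
        rw [WithZero.coe_unzero]; exact hw
      have h5 : (1 : Multiplicative ℤ) < WithZero.unzero h0 := by
        rw [← WithZero.coe_one, WithZero.coe_lt_coe] at h4
        exact h4
      exact h5
    obtain ⟨k, hk⟩ : ∃ k : ℕ, (WithZero.unzero h0).toAdd = (k : ℤ) + 1 :=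
      ⟨((WithZero.unzero h0).toAdd - 1).toNat, by omega⟩
    rw [hk] at h2
    have h6 : (2 : ℝ) ≤ ((Ideal.absNorm w.asIdeal : ℕ) : ℝ) := by exact_mod_cast hN
    have h7 : (1 : ℝ) ≤ ((Ideal.absNorm w.asIdeal : ℕ) : ℝ) ^ k := one_le_pow₀ (by linarith)
    have h8 : (((((Ideal.absNorm w.asIdeal : ℕ) : NNReal) ^ ((k : ℤ) + 1) : NNReal)) : ℝ) =
        ((Ideal.absNorm w.asIdeal : ℕ) : ℝ) ^ k * ((Ideal.absNorm w.asIdeal : ℕ) : ℝ) := by
      push_cast
      rw [← pow_succ, ← zpow_natCast]
      push_cast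
      rfl
    rw [h8] at h2
    nlinarith
  obtain ⟨z, hz⟩ := h1
  rw [← hz]
  exact z.2

theorem sum_lt (w : IsDedekindDomain.HeightOneSpectrum (𝓞 L)) (y : L)
    (hy : 1 < FinitePlace.mk w y) (a : ℕ → ℤ) (k : ℕ) :
    FinitePlace.mk w (∑ i ∈ Finset.range k, (a i : L) * y ^ i) < (FinitePlace.mk w y) ^ k := by
  induction k with
  | zero => simp
  | succ k ih =>
    rw [Finset.sum_range_succ]
    refine lt_of_le_of_lt (FinitePlace.add_le _ _ _) ?_
    have h1 : FinitePlace.mk w ((a k : L) * y ^ k) ≤ (FinitePlace.mk w y) ^ k := by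
      rw [map_mul, map_pow]
      have h2 : FinitePlace.mk w (a k : L) ≤ 1 := by
        rw [mk_abv]
        exact NumberField.HeightOneSpectrum.adicAbv_intCast_le_one L w (a k)
      have h3 : 0 < (FinitePlace.mk w y) ^ k := pow_pos (by linarith) _
      nlinarith
    have h4 : (FinitePlace.mk w y) ^ k < (FinitePlace.mk w y) ^ (k + 1) :=
      pow_lt_pow_right₀ hy (Nat.lt_succ_self k)
    rw [max_lt_iff]
    exact ⟨lt_trans ih h4, lt_of_le_of_lt h1 h4⟩

theorem grow (f : ℤ[X]) (hf : f.Monic) (w : IsDedekindDomain.HeightOneSpectrum (𝓞 L)) (y : L)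
    (hy : 1 < FinitePlace.mk w y) :
    (FinitePlace.mk w y) ^ f.natDegree ≤ FinitePlace.mk w (aeval y f) := by
  have h1 : aeval y f = ∑ i ∈ Finset.range f.natDegree, (f.coeff i : L) * y ^ i + y ^ f.natDegree := by
    rw [aeval_eq_sum_range, Finset.sum_range_succ, hf.coeff_natDegree, one_smul]
    simp
  have h2 := sum_lt w y hy f.coeff f.natDegree
  by_contra hcon
  rw [not_le] at hcon
  have h3 : y ^ f.natDegree = aeval y f +
      (-(∑ i ∈ Finset.range f.natDegree, (f.coeff i : L) * y ^ i)) := by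
    rw [h1]; ring
  have h4 : FinitePlace.mk w (y ^ f.natDegree) ≤ max (FinitePlace.mk w (aeval y f))
      (FinitePlace.mk w (-(∑ i ∈ Finset.range f.natDegree, (f.coeff i : L) * y ^ i))) := by
    conv_lhs => rw [h3]
    exact FinitePlace.add_le _ _ _
  rw [map_pow, map_neg_eq_map] at h4
  exact absurd h4 (not_le.2 (max_lt hcon h2))

theorem grow_it (f : ℤ[X]) (hf : f.Monic) (hd : f.natDegree ≠ 0)
    (w : IsDedekindDomain.HeightOneSpectrum (𝓞 L)) (y : L)
    (hy : 1 < FinitePlace.mk w y) (n : ℕ) :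
    (FinitePlace.mk w y) ^ (f.natDegree ^ n) ≤
      FinitePlace.mk w ((fun z : L => aeval z f)^[n] y) := by
  induction n with
  | zero => simp
  | succ n ih =>
    rw [Function.iterate_succ_apply']
    have h1 : 1 < FinitePlace.mk w ((fun z : L => aeval z f)^[n] y) :=
      lt_of_lt_of_le (one_lt_pow₀ hy (pow_ne_zero _ hd)) ih
    refine le_trans ?_ (grow f hf w _ h1)
    rw [pow_succ, pow_mul]
    exact pow_le_pow_left₀ (pow_nonneg (by linarith) _) ih _

theorem nonint (f : ℤ[X]) (hf : f.Monic) (hd : f.natDegree ≠ 0) (y : L) (hy : ¬ IsIntegral ℤ y)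
    (n : ℕ) : (f.natDegree : ℝ) ^ n * Real.log 2 ≤
      Height.logHeight₁ ((fun z : L => aeval z f)^[n] y) := by
  obtain ⟨w, hw⟩ := exists_place y hy
  have h1 := grow_it f hf hd w y (by linarith) n
  set z := (fun z : L => aeval z f)^[n] y with hz
  have h2 : (2 : ℝ) ^ (f.natDegree ^ n) ≤ FinitePlace.mk w z :=
    le_trans (pow_le_pow_left₀ (by norm_num) hw _) h1
  have hz0 : z ≠ 0 := by
    intro h0
    rw [h0, map_zero] at h2
    have : (0 : ℝ) < (2 : ℝ) ^ (f.natDegree ^ n) := by positivity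
    linarith
  rw [NumberField.logHeight₁_eq]
  have h3 : Real.posLog (FinitePlace.mk w z) ≤ ∑ᶠ v : FinitePlace L, Real.posLog (v z) := by
    refine single_le_finsum (f := fun v : FinitePlace L => Real.posLog (v z)) (FinitePlace.mk w) ?_
      fun v => Real.posLog_nonneg
    refine (FinitePlace.hasFiniteMulSupport hz0).subset ?_
    intro v hv hv1
    apply hv
    simp only at hv1 ⊢
    rw [hv1, Real.posLog_one]
  have h4 : 0 ≤ ∑ v : InfinitePlace L, (v.mult : ℝ) * Real.posLog (v z) :=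
    Finset.sum_nonneg fun v _ => mul_nonneg (by positivity) Real.posLog_nonneg
  have h5 : (f.natDegree : ℝ) ^ n * Real.log 2 ≤ Real.posLog (FinitePlace.mk w z) := by
    have h6 := Real.log_le_log (by positivity) h2
    rw [Real.log_pow] at h6
    push_cast at h6
    exact le_trans h6 (le_max_right _ _)
  linarith

/-- The polynomials `x ^ 2 - c`, `c ≥ 2`. -/
theorem quad {c : ℝ} (hc : 2 ≤ c) : ∃ a b : ℝ, Inv (X ^ 2 - C (c : ℂ)) a b := by
  set β := (1 + Real.sqrt (1 + 4 * c)) / 2 with hβ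
  have hs : Real.sqrt (1 + 4 * c) ^ 2 = 1 + 4 * c := Real.sq_sqrt (by linarith)
  have hs3 : 3 ≤ Real.sqrt (1 + 4 * c) := by
    rw [show (3 : ℝ) = Real.sqrt (3 ^ 2) by rw [Real.sqrt_sq (by norm_num)]]
    exact Real.sqrt_le_sqrt (by linarith)
  have hβ2 : 2 ≤ β := by rw [hβ]; linarith
  have hβe : β ^ 2 = c + β := by rw [hβ]; nlinarith
  refine ⟨-β, β, by linarith, fun t ht1 ht2 z hz => ?_⟩
  rw [eval_sub, eval_pow, eval_X, eval_C] at hz
  have h1 : 0 ≤ t + c := by nlinarith
  set s := Real.sqrt (t + c) with hsd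
  have hss : s ^ 2 = t + c := Real.sq_sqrt h1
  have hs0 : 0 ≤ s := Real.sqrt_nonneg _
  have hsβ : s ≤ β := by
    by_contra hcon
    rw [not_le] at hcon
    nlinarith
  have h2 : (z - s) * (z + s) = 0 := by
    have h3 : ((s : ℝ) : ℂ) ^ 2 = (t : ℂ) + (c : ℂ) := by
      rw [← Complex.ofReal_pow, hss, Complex.ofReal_add]
    linear_combination hz - h3
  rcases mul_eq_zero.1 h2 with h3 | h3
  · exact ⟨s, by linarith, hsβ, by linear_combination h3⟩
  · refine ⟨-s, by linarith, by linarith, ?_⟩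
    push_cast
    linear_combination h3

end

end Pool.Agent.R719.DS
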