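import Pool.Agent.R719.DS.Core

/-!
# Global part: heights of the iterates of a point
-/

set_option autoImplicit false

open Polynomial NumberField Module Filter Topology

namespace Pool.Agent.R719.DS

noncomputable section

variable {K L : Type} [Field K] [NumberField K] [Field L] [NumberField L] [Algebra K L]

theorem emb_sum {L : Type} [Field L] [NumberField L] (g : InfinitePlace L → ℝ) :
    ∑ ψ : L →+* ℂ, g (InfinitePlace.mk ψ) = ∑ v : InfinitePlace L, (v.mult : ℝ) * g v := by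
  classical
  rw [← Finset.sum_fiberwise (s := Finset.univ) (g := fun ψ : L →+* ℂ => InfinitePlace.mk ψ)]
  refine Finset.sum_congr rfl fun v _ => ?_
  rw [Finset.sum_congr rfl (fun ψ hψ => by rw [(Finset.mem_filter.1 hψ).2]), Finset.sum_const,
    InfinitePlace.card_filter_mk_eq, nsmul_eq_mul]

theorem height_ge {L : Type} [Field L] [NumberField L] (y : L) :
    ∑ ψ : L →+* ℂ, Real.posLog ‖ψ y‖ ≤ Height.logHeight₁ y := by
  rw [NumberField.logHeight₁_eq]
  have h1 : ∑ ψ : L →+* ℂ, Real.posLog ‖ψ y‖ =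
      ∑ v : InfinitePlace L, (v.mult : ℝ) * Real.posLog (v y) := by
    rw [← emb_sum]
    rfl
  rw [h1]
  have h2 : 0 ≤ ∑ᶠ v : FinitePlace L, Real.posLog (v y) :=
    finsum_nonneg fun v => Real.posLog_nonneg
  linarith

theorem log_norm {K : Type} [Field K] [NumberField K] (y : K) (hy : y ≠ 0) :
    ∑ φ : K →+* ℂ, Real.log ‖φ y‖ = Real.log |(Algebra.norm ℚ y : ℝ)| := by
  have h1 : ∑ φ : K →+* ℂ, Real.log ‖φ y‖ =
      ∑ v : InfinitePlace K, (v.mult : ℝ) * Real.log (v y) := by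
    rw [← emb_sum]
    rfl
  rw [h1, ← Rat.cast_abs, ← InfinitePlace.prod_eq_abs_norm, Real.log_prod]
  · refine Finset.sum_congr rfl fun v _ => ?_
    rw [Real.log_pow]
  · intro v _
    exact pow_ne_zero _ (by simpa using hy)

theorem orb_map (f : K[X]) (x : L) (ψ : L →+* ℂ) (n : ℕ) :
    ψ ((fun y : L => aeval y f)^[n] x) =
      (fun w => (f.map (ψ.comp (algebraMap K L))).eval w)^[n] (ψ x) := by
  induction n with
  | zero => rfl
  | succ n ih =>
    rw [Function.iterate_succ_apply', Function.iterate_succ_apply', ← ih]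
    rw [eval_map, ← hom_eval₂]
    rfl

theorem root_lift (φ : K →+* ℂ) (x : L) (η : ℂ) (h : η ∈ ((minpoly K x).map φ).roots) :
    ∃ ψ : L →+* ℂ, ψ.comp (algebraMap K L) = φ ∧ ψ x = η := by
  let _ := φ.toAlgebra
  have h1 : η ∈ (minpoly K x).rootSet ℂ := by
    rw [mem_rootSet]
    have h2 := (mem_roots'.1 h)
    refine ⟨fun h0 => h2.1 (by rw [h0, Polynomial.map_zero]), ?_⟩
    have h3 := h2.2
    rw [IsRoot, eval_map] at h3
    exact h3
  rw [← Algebra.IsAlgebraic.range_eval_eq_rootSet_minpoly] at h1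
  obtain ⟨ψ, hψ⟩ := h1
  exact ⟨ψ.toRingHom, ψ.comp_algebraMap, hψ⟩

open scoped Classical in
theorem fiber_le (φ : K →+* ℂ) (x : L) (u : ℂ → ℝ) (hu : ∀ z, 0 ≤ u z) :
    (((minpoly K x).map φ).roots.map u).sum ≤
      ∑ ψ : L →+* ℂ with ψ.comp (algebraMap K L) = φ, u (ψ x) := by
  classical
  have : FiniteDimensional K L := FiniteDimensional.right ℚ K L
  have hx : IsIntegral K x := IsIntegral.of_finite K x
  have hnd : ((minpoly K x).map φ).roots.Nodup :=
    nodup_roots ((minpoly.irreducible hx).separable.map)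
  have hl := root_lift φ x
  choose! g hg1 hg2 using hl
  set R := ((minpoly K x).map φ).roots with hR
  have e : (R.map u).sum = ∑ η ∈ R.toFinset, u η := by
    rw [Finset.sum_eq_multiset_sum, Multiset.toFinset_val, hnd.dedup]
  have e2 : ∑ η ∈ R.toFinset, u η = ∑ η ∈ R.toFinset, u ((g η) x) :=
    Finset.sum_congr rfl fun η hη => by rw [hg2 η (Multiset.mem_toFinset.1 hη)]
  have e3 : ∑ ψ ∈ R.toFinset.image g, u (ψ x) = ∑ η ∈ R.toFinset, u ((g η) x) := by
    rw [Finset.sum_image]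
    intro a ha b hb hab
    rw [← hg2 a (Multiset.mem_toFinset.1 ha), ← hg2 b (Multiset.mem_toFinset.1 hb), hab]
  rw [e, e2, ← e3]
  refine Finset.sum_le_sum_of_subset_of_nonneg ?_ fun ψ _ _ => hu _
  intro ψ hψ
  rw [Finset.mem_image] at hψ
  obtain ⟨η, hη, rfl⟩ := hψ
  rw [Finset.mem_filter]
  exact ⟨Finset.mem_univ _, hg1 η (Multiset.mem_toFinset.1 hη)⟩

/-- The difference of the minimal polynomial and its complex conjugate. -/
def dif (c : K →+* K) (x : L) : K[X] := minpoly K x - (minpoly K x).map c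

theorem main (c : K →+* K) (hc : ∀ (φ : K →+* ℂ) (y : K), φ (c y) = (starRingEnd ℂ) (φ y))
    (f : K[X]) (hf : f.Monic) (hd : 2 ≤ f.natDegree) (hI : ∀ φ : K →+* ℂ, ∃ a b, Inv (f.map φ) a b)
    (x : L) (hB : dif c x ≠ 0) {ν : ℝ} (hν : 0 < ν)
    (hn : (finrank ℚ K : ℝ) * Real.log ν ≤
      2 * Real.log |(Algebra.norm ℚ (dif c x).leadingCoeff : ℝ)|) :
    ∃ C : ℝ, ∀ n : ℕ, (f.natDegree : ℝ) ^ n * (finrank ℚ K * Real.log (1 + ν / 4)) - C ≤
      2 * Height.logHeight₁ ((fun y : L => aeval y f)^[n] x) := by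
  classical
  have : FiniteDimensional K L := FiniteDimensional.right ℚ K L
  have hx : IsIntegral K x := IsIntegral.of_finite K x
  have hcore : ∀ φ : K →+* ℂ, ∃ C : ℝ, ∀ n : ℕ,
      (f.natDegree : ℝ) ^ n * (Real.log (1 + ν / 4) +
        ν / (4 + ν) * (2 * Real.log ‖φ (dif c x).leadingCoeff‖ - Real.log ν)) - C ≤
      2 * (((minpoly K x).map φ).roots.map fun η =>
        Real.posLog ‖(fun w => (f.map φ).eval w)^[n] η‖).sum := by
    intro φ
    obtain ⟨a, b, hab⟩ := hI φ
    have hcj : cj ((minpoly K x).map φ) = ((minpoly K x).map c).map φ := by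
      ext i
      simp only [cj, coeff_map]
      exact (hc φ _).symm
    have hdif : (minpoly K x).map φ - cj ((minpoly K x).map φ) = (dif c x).map φ := by
      rw [hcj, dif, Polynomial.map_sub]
    have hne : (minpoly K x).map φ - cj ((minpoly K x).map φ) ≠ 0 := by
      rw [hdif]
      exact (Polynomial.map_ne_zero_iff φ.injective).2 hB
    have h := core (F := f.map φ) (hf.map φ) (by rw [hf.natDegree_map]; omega)
      ((minpoly.monic hx).map φ) hne hab hν
    rw [hdif, leadingCoeff_map, hf.natDegree_map] at h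
    exact h
  choose C hC using hcore
  refine ⟨∑ φ, C φ, fun n => ?_⟩
  have h1 := Finset.sum_le_sum fun (φ : K →+* ℂ) (_ : φ ∈ Finset.univ) => hC φ n
  have h2 : ∑ φ : K →+* ℂ, 2 * (((minpoly K x).map φ).roots.map fun η =>
        Real.posLog ‖(fun w => (f.map φ).eval w)^[n] η‖).sum ≤
      2 * Height.logHeight₁ ((fun y : L => aeval y f)^[n] x) := by
    rw [← Finset.mul_sum]
    refine mul_le_mul_of_nonneg_left ?_ (by norm_num)
    refine le_trans ?_ (height_ge _)
    refine le_trans (Finset.sum_le_sum fun (φ : K →+* ℂ) (_ : φ ∈ Finset.univ) =>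
      fiber_le φ x _ fun z => Real.posLog_nonneg) ?_
    rw [← Finset.sum_fiberwise (s := Finset.univ)
      (g := fun ψ : L →+* ℂ => ψ.comp (algebraMap K L))]
    refine Finset.sum_le_sum fun φ _ => le_of_eq (Finset.sum_congr rfl fun ψ hψ => ?_)
    rw [orb_map, (Finset.mem_filter.1 hψ).2]
  have h4 := le_trans h1 h2
  rw [Finset.sum_sub_distrib, ← Finset.mul_sum, Finset.sum_add_distrib, ← Finset.mul_sum,
      Finset.sum_sub_distrib, ← Finset.mul_sum, log_norm _ (leadingCoeff_ne_zero.2 hB),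
      Finset.sum_const, Finset.sum_const, Finset.card_univ, NumberField.Embeddings.card] at h4
  simp only [nsmul_eq_mul] at h4
  have h3 : 0 ≤ (f.natDegree : ℝ) ^ n * (ν / (4 + ν) *
        (2 * Real.log |(Algebra.norm ℚ (dif c x).leadingCoeff : ℝ)| -
          finrank ℚ K * Real.log ν)) :=
      mul_nonneg (by positivity) (mul_nonneg (by positivity) (by linarith))
  rw [mul_add] at h4
  linarith

/-- Passage to the limit. -/
theorem limit {k l r : ℝ} (hl : 0 < l) {d : ℝ} (hd : 1 < d) {s : ℕ → ℝ} {h : ℝ}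
    (hs : ∃ C : ℝ, ∀ n : ℕ, d ^ n * (k * r) - C ≤ 2 * s n)
    (hh : Tendsto (fun n => s n / (l * d ^ n)) atTop (𝓝 h)) : k * r / (2 * l) ≤ h := by
  obtain ⟨C, hC⟩ := hs
  have h1 : Tendsto (fun n : ℕ => k * r / (2 * l) - C / (2 * l) * (d⁻¹) ^ n) atTop
      (𝓝 (k * r / (2 * l) - C / (2 * l) * 0)) := by
    refine Tendsto.sub tendsto_const_nhds (Tendsto.const_mul _ ?_)
    exact tendsto_pow_atTop_nhds_zero_of_lt_one (by positivity) (inv_lt_one_of_one_lt₀ hd)
  rw [mul_zero, sub_zero] at h1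
  refine le_of_tendsto_of_tendsto' h1 hh fun n => ?_
  have hdn : 0 < d ^ n := by positivity
  rw [le_div_iff₀ (by positivity)]
  have h2 := hC n
  have h3 : (k * r / (2 * l) - C / (2 * l) * (d⁻¹) ^ n) * (l * d ^ n) =
      (d ^ n * (k * r) - C * ((d⁻¹) ^ n * d ^ n)) / 2 := by
    field_simp
  rw [h3, inv_pow, inv_mul_cancel₀ hdn.ne', mul_one]
  linarith

end

end Pool.Agent.R719.DS
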